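import Pool.Agent.helper16.CVL.Spec

/-!
# cv: ISO: no loss at one point implies covering (helper77)
-/

set_option autoImplicit false

open Complex Metric Set Filter Topology MeasureTheory
open HY (UD T S hd UN RM)
open RT (UC TD rm lf cr pd bl gr hdf Lf UP)

noncomputable section

namespace CVL

/-- equality on the disc. -/
theorem ISO_congr {W : Set ℂ} {a : ℂ} {φ ψ : ℂ → ℂ} (h : UC W a φ) (he : ∀ z ∈ UD, ψ z = φ z) : UC W a ψ := by
  have hUD : IsOpen UD := isOpen_ball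
  have h0 : (0 : ℂ) ∈ UD := mem_ball_self one_pos
  refine ⟨h.dif.congr he, fun z hz => by rw [he z hz]; exact h.map hz, by rw [he 0 h0]; exact h.val, ?_, ?_⟩
  · intro x hx
    have h1 : ψ =ᶠ[𝓝 x] φ := by
      filter_upwards [hUD.mem_nhds hx] with z hz using he z hz
    rw [h1.deriv_eq]
    exact h.der x hx
  · intro g hg hm x hx y hy hxy
    obtain ⟨G, hG1, hG2, hG3, hG4⟩ := h.lift g hg hm x hx y hy (by rw [← he x hx]; exact hxy)
    exact ⟨G, hG1, hG2, hG3, fun z hz => by rw [he _ (hG2 hz)]; exact hG4 z hz⟩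

theorem ISO_mul {v z : ℂ} (hv : ‖v‖ = 1) (hz : z ∈ UD) : v * z ∈ UD := by
  have h1 : ‖z‖ < 1 := by simpa [UD, mem_ball_zero_iff] using hz
  have h2 : ‖v * z‖ < 1 := by rw [norm_mul, hv, one_mul]; exact h1
  simpa [UD, mem_ball_zero_iff] using h2

/-- rotation of a cover. -/
theorem ISO_rot {W : Set ℂ} {a : ℂ} {φ : ℂ → ℂ} (h : UC W a φ) {v : ℂ} (hv : ‖v‖ = 1) : UC W a (fun u => φ (v * u)) := by
  have hUD : IsOpen UD := isOpen_ball
  have hv0 : v ≠ 0 := by
    rintro rfl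
    simp at hv
  have hvi : ‖v⁻¹‖ = 1 := by rw [norm_inv, hv, inv_one]
  refine ⟨?_, fun z hz => h.map (ISO_mul hv hz), by show φ (v * 0) = a; rw [mul_zero]; exact h.val, ?_, ?_⟩
  · exact h.dif.comp ((differentiable_id.const_mul v).differentiableOn) (fun z hz => ISO_mul hv hz)
  · intro x hx
    have h1 : DifferentiableAt ℂ φ (v * x) := h.dif.differentiableAt (hUD.mem_nhds (ISO_mul hv hx))
    have h2 : HasDerivAt (fun u : ℂ => v * u) v x := by
      simpa using (hasDerivAt_id x).const_mul v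
    have h3 : HasDerivAt (fun u => φ (v * u)) (deriv φ (v * x) * v) x :=
      HasDerivAt.comp x h1.hasDerivAt h2
    rw [h3.deriv]
    exact mul_ne_zero (h.der _ (ISO_mul hv hx)) hv0
  · intro g hg hm x hx y hy hxy
    obtain ⟨G, hG1, hG2, hG3, hG4⟩ := h.lift g hg hm (v * x) (ISO_mul hv hx) y hy hxy
    refine ⟨fun z => v⁻¹ * G z, hG1.const_mul _, fun z hz => ISO_mul hvi (hG2 hz), ?_, ?_⟩
    · show v⁻¹ * G y = x
      rw [hG3, ← mul_assoc, inv_mul_cancel₀ hv0, one_mul]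
    · intro z hz
      show φ (v * (v⁻¹ * G z)) = g z
      rw [← mul_assoc, mul_inv_cancel₀ hv0, one_mul]
      exact hG4 z hz

theorem ISO (hTDF : RT.TDF_stmt) (hTLF : RT.TLF_stmt) (hUON : RT.UON_stmt) : ISO_stmt := by
  intro s Ω X G hΩ hX hG hGm a ha h1
  have hUD : IsOpen UD := isOpen_ball
  have h0 : (0 : ℂ) ∈ UD := mem_ball_self one_pos
  obtain ⟨hUa, hcra, -, -, hpda, -, hrma⟩ := hTDF s Ω hΩ a ha
  obtain ⟨hUX, hcrX, -, -, -, -, -⟩ := hTDF s X hX (G a) (hGm ha)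
  obtain ⟨F, ⟨hFd, hFm, hFe⟩, hF0, hFh⟩ := hTLF s Ω X G hΩ hX hG hGm a ha (G a) (hGm ha) 0 h0 0 h0
    (by rw [hUX.val, hUa.val])
  -- the lift is a rotation
  have hF1 : ‖deriv F 0‖ = 1 := by
    have h2 := hFh 0 h0
    rw [hUa.val, h1] at h2
    have h3 : hd F 0 = ‖deriv F 0‖ / (1 - ‖F 0‖ ^ 2) := rfl
    rw [h3, hF0, norm_zero] at h2
    norm_num at h2
    exact h2
  have hrot : EqOn F (fun z => deriv F 0 * z) UD := by
    have h2 := Complex.affine_of_mapsTo_ball_of_norm_dslope_eq_div (f := F) (c := 0) (R₁ := 1) (R₂ := 1) (z₀ := 0) hFd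
      (by
        intro z hz
        rw [hF0]
        exact ball_subset_closedBall (hFm hz)) (mem_ball_self one_pos)
      (by rw [dslope_same, hF1]; norm_num)
    intro z hz
    have h3 := h2 hz
    simp only [dslope_same, hF0, sub_zero, zero_add, smul_eq_mul] at h3
    show F z = deriv F 0 * z
    rw [h3, mul_comm]
  obtain ⟨v, hvdef⟩ : ∃ v, v = deriv F 0 := ⟨_, rfl⟩
  rw [← hvdef] at hF1 hrot
  have hlift : ∀ u ∈ UD, G (rm Ω a u) = rm X (G a) (v * u) := by
    intro u hu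
    rw [← hFe u hu, hrot hu]
  have hUC : UC X (G a) (fun u => G (rm Ω a u)) := ISO_congr (ISO_rot hUX hF1) hlift
  have himg : G '' Ω = X := by
    apply Subset.antisymm
    · rintro _ ⟨z, hz, rfl⟩
      exact hGm hz
    · intro y hy
      rw [← hUON X (G a) _ hX.op hX.con hUC] at hy
      obtain ⟨u, hu, rfl⟩ := hy
      exact ⟨rm Ω a u, hUa.map hu, rfl⟩
  have hall : ∀ b ∈ Ω, hdf G Ω X b = 1 := by
    intro b hb
    obtain ⟨-, -, -, x, hx, hxb, -⟩ := hpda b hb
    rw [← hxb, ← hFh x hx]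
    have h2 : deriv F x = v := by
      have h3 : F =ᶠ[𝓝 x] fun z => v * z := by
        filter_upwards [hUD.mem_nhds hx] with z hz using hrot hz
      rw [h3.deriv_eq]
      have h4 : HasDerivAt (fun u : ℂ => v * u) v x := by
        simpa using (hasDerivAt_id x).const_mul v
      exact h4.deriv
    have h5 : hd F x = ‖deriv F x‖ / (1 - ‖F x‖ ^ 2) := rfl
    have hx1 : ‖x‖ < 1 := by simpa [UD, mem_ball_zero_iff] using hx
    have h6 : (1 - ‖x‖ ^ 2) ≠ 0 := by
      have : ‖x‖ ^ 2 < 1 := by nlinarith [norm_nonneg x]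
      linarith
    rw [h5, h2, hrot hx]
    show ‖v‖ / (1 - ‖v * x‖ ^ 2) * (1 - ‖x‖ ^ 2) = 1
    rw [norm_mul, hF1, one_mul]
    exact one_div_mul_cancel h6
  have hne : ∀ z ∈ Ω, deriv G z ≠ 0 := by
    intro z hz h2
    have h3 := hall z hz
    have h4 : hdf G Ω X z = ‖deriv G z‖ * cr Ω z / cr X (G z) := rfl
    rw [h4, h2, norm_zero, zero_mul, zero_div] at h3
    exact zero_ne_one h3
  refine ⟨himg, hall, ⟨v, hF1, hlift⟩, hUC, hne, ?_⟩
  have key : ∀ b ∈ Ω, cr Ω b * ‖deriv G b‖ = cr X (G b) := by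
    intro b hb
    have h3 := hall b hb
    have h4 : hdf G Ω X b = ‖deriv G b‖ * cr Ω b / cr X (G b) := rfl
    rw [h4] at h3
    have h5 : cr X (G b) ≠ 0 := by
      intro h6
      rw [h6, div_zero] at h3
      exact zero_ne_one h3
    rw [div_eq_one_iff_eq h5] at h3
    rw [mul_comm]
    exact h3
  intro b hb c hc hbc
  rw [key b hb, key c hc, hbc]

end CVL
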